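import Mathlib

namespace Pool.Agent.MP_8ba54e_co

universe u v

/-- a point-line incidence geometry -/
structure Geom : Type (u + 1) where
  P : Type u
  L : Type u
  I : P → L → Prop

/-- the incidence graph -/
def Geom.graph (G : Geom.{u}) : SimpleGraph (G.P ⊕ G.L) :=
  SimpleGraph.fromRel fun a b => ∃ p l, a = Sum.inl p ∧ b = Sum.inr l ∧ G.I p l

/-- generalized hexagon of order `(s, t)` -/
def Geom.IsHexagon (G : Geom.{u}) (s t : ℕ) : Prop :=
  G.graph.ediam = 6 ∧ G.graph.egirth = 12 ∧ (∀ l, {p | G.I p l}.encard = s + 1) ∧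
    ∀ p, {l | G.I p l}.encard = t + 1

/-- points and lines swapped -/
def Geom.dual (G : Geom.{u}) : Geom.{u} := ⟨G.L, G.P, fun l p => G.I p l⟩

/-- `G` has a subgeometry isomorphic to `H` -/
def Geom.Contains (G : Geom.{u}) (H : Geom.{v}) : Prop :=
  ∃ (f : H.P → G.P) (g : H.L → G.L), Function.Injective f ∧ Function.Injective g ∧
    ∀ p l, G.I (f p) (g l) ↔ H.I p l

/-- isomorphism of geometries -/
def Geom.Iso (G : Geom.{u}) (H : Geom.{v}) : Prop :=
  ∃ (f : G.P ≃ H.P) (g : G.L ≃ H.L), ∀ p l, H.I (f p) (g l) ↔ G.I p l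

/-- the quadratic form of the parabolic quadric `Q(6, K)` -/
def quad {K : Type} [Field K] (x : Fin 7 → K) : K := x 0 * x 4 + x 1 * x 5 + x 2 * x 6 - x 3 ^ 2

/-- Grassmann coordinate -/
def gr {K : Type} [Field K] (x y : Fin 7 → K) (i j : Fin 7) : K := x i * y j - x j * y i

/-- the linear equations of Tits for the Grassmann coordinates of the line spanned by `x` and `y` -/
def tits {K : Type} [Field K] (x y : Fin 7 → K) : Prop :=
  gr x y 1 2 = gr x y 3 4 ∧ gr x y 5 4 = gr x y 3 2 ∧ gr x y 2 0 = gr x y 3 5 ∧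
    gr x y 6 5 = gr x y 3 0 ∧ gr x y 0 1 = gr x y 3 6 ∧ gr x y 4 6 = gr x y 3 1

/-- a subspace of vector dimension `d` that lies on the quadric -/
def OnQuadric {K : Type} [Field K] (d : ℕ) (U : Submodule K (Fin 7 → K)) : Prop :=
  Module.finrank K U = d ∧ ∀ x ∈ U, quad x = 0

/-- a line of the quadric whose Grassmann coordinates satisfy the equations of Tits -/
def HexLine {K : Type} [Field K] (W : Submodule K (Fin 7 → K)) : Prop :=
  OnQuadric 2 W ∧ ∀ x ∈ W, ∀ y ∈ W, tits x y

/-- the split Cayley hexagon `H(K)` in the coordinates of Tits -/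
def splitCayley (K : Type) [Field K] : Geom.{0} where
  P := {U : Submodule K (Fin 7 → K) // OnQuadric 1 U}
  L := {W : Submodule K (Fin 7 → K) // HexLine W}
  I U W := U.1 ≤ W.1

end Pool.Agent.MP_8ba54e_co
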